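import Mathlib

/-!
# The substitution `z = w ^ N` in Laurent series
-/

open Polynomial

namespace Pool.Agent.Lib.Puiseux

variable {k : Type*} [Field k]

/-- the substitution `z = w ^ N` -/
noncomputable def subst (N : ℕ+) : LaurentSeries k →+* LaurentSeries k :=
  HahnSeries.embDomainRingHom (AddMonoidHom.mulLeft (N : ℤ))
    (fun a b h => by
      have h1 : ((N : ℕ) : ℤ) * a = ((N : ℕ) : ℤ) * b := h
      exact mul_left_cancel₀ (by exact_mod_cast N.ne_zero) h1)
    (fun a b => by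
      have hN : (0 : ℤ) < ((N : ℕ) : ℤ) := by exact_mod_cast N.pos
      change ((N : ℕ) : ℤ) * a ≤ ((N : ℕ) : ℤ) * b ↔ a ≤ b
      exact mul_le_mul_iff_right₀ hN)

lemma subst_coeff (N : ℕ+) (x : LaurentSeries k) (j : ℤ) :
    (subst N x).coeff (((N : ℕ) : ℤ) * j) = x.coeff j :=
  HahnSeries.embDomain_coeff (f := ⟨⟨AddMonoidHom.mulLeft ((N : ℕ) : ℤ), _⟩, _⟩) (a := j)

lemma subst_coeff_of_not_dvd (N : ℕ+) (x : LaurentSeries k) {j : ℤ} (hj : ¬ ((N : ℕ) : ℤ) ∣ j) :
    (subst N x).coeff j = 0 := by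
  refine HahnSeries.embDomain_of_notMem_range ?_
  rintro ⟨i, hi⟩
  exact hj ⟨i, hi.symm⟩

lemma subst_single (N : ℕ+) (j : ℤ) (a : k) :
    subst N (HahnSeries.single j a) = HahnSeries.single (((N : ℕ) : ℤ) * j) a :=
  HahnSeries.embDomain_single

lemma subst_injective (N : ℕ+) : Function.Injective (subst N : LaurentSeries k → LaurentSeries k) :=
  RingHom.injective (subst (k := k) N)

lemma subst_subst (M N : ℕ+) (x : LaurentSeries k) : subst M (subst N x) = subst (N * M) x := by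
  ext j
  by_cases h1 : ((M : ℕ) : ℤ) ∣ j
  · obtain ⟨i, rfl⟩ := h1
    rw [subst_coeff]
    by_cases h2 : ((N : ℕ) : ℤ) ∣ i
    · obtain ⟨l, rfl⟩ := h2
      rw [subst_coeff]
      have : ((M : ℕ) : ℤ) * (((N : ℕ) : ℤ) * l) = (((N * M : ℕ+) : ℕ) : ℤ) * l := by
        push_cast; ring
      rw [this, subst_coeff]
    · rw [subst_coeff_of_not_dvd _ _ h2, subst_coeff_of_not_dvd]
      rintro ⟨l, hl⟩
      apply h2
      refine ⟨l, ?_⟩
      have hM : ((M : ℕ) : ℤ) ≠ 0 := by exact_mod_cast M.ne_zero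
      apply mul_left_cancel₀ hM
      rw [hl]
      push_cast; ring
  · rw [subst_coeff_of_not_dvd _ _ h1, subst_coeff_of_not_dvd]
    rintro ⟨l, hl⟩
    apply h1
    refine ⟨((N : ℕ) : ℤ) * l, ?_⟩
    rw [hl]
    push_cast; ring

lemma subst_comp (M N : ℕ+) : (subst M : LaurentSeries k →+* _).comp (subst N) = subst (N * M) :=
  RingHom.ext fun x => subst_subst M N x

/-- a Laurent series without principal part is a power series -/
lemma mem_range_of_coeff_neg {x : LaurentSeries k} (h : ∀ j < 0, x.coeff j = 0) :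
    ∃ p : PowerSeries k, HahnSeries.ofPowerSeries ℤ k p = x := by
  refine ⟨PowerSeries.mk fun n => x.coeff n, ?_⟩
  ext j
  rcases lt_or_ge j 0 with hj | hj
  · rw [h j hj, HahnSeries.ofPowerSeries_apply]
    refine HahnSeries.embDomain_of_notMem_range ?_
    rintro ⟨i, hi⟩
    have : (i : ℤ) = j := hi
    omega
  · obtain ⟨n, rfl⟩ := Int.eq_ofNat_of_zero_le hj
    rw [HahnSeries.ofPowerSeries_apply_coeff, PowerSeries.coeff_mk]

end Pool.Agent.Lib.Puiseux
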