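import Mathlib
import Pool.Agent.Lib.Puiseux.Sub

/-!
# The substitution `w ↦ ζ w` in Laurent series
-/

open Polynomial

namespace Pool.Agent.Lib.Puiseux

variable {k : Type*} [Field k]

/-- the substitution `w ↦ ζ w`, as a function -/
def rotFun (ζ : kˣ) (x : LaurentSeries k) : LaurentSeries k where
  coeff := fun j => ((ζ ^ j : kˣ) : k) * x.coeff j
  isPWO_support' := x.isPWO_support.mono fun j hj => by
    rw [Function.mem_support] at hj
    exact right_ne_zero_of_mul hj

lemma rotFun_coeff (ζ : kˣ) (x : LaurentSeries k) (j : ℤ) :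
    (rotFun ζ x).coeff j = ((ζ ^ j : kˣ) : k) * x.coeff j := rfl

lemma rotFun_support (ζ : kˣ) (x : LaurentSeries k) : (rotFun ζ x).support = x.support := by
  ext j
  rw [HahnSeries.mem_support, HahnSeries.mem_support, rotFun_coeff, mul_ne_zero_iff]
  exact and_iff_right (Units.ne_zero _)

/-- the substitution `w ↦ ζ w` -/
noncomputable def rot (ζ : kˣ) : LaurentSeries k →+* LaurentSeries k where
  toFun := rotFun ζ
  map_one' := by
    ext j
    rw [rotFun_coeff, HahnSeries.coeff_one]
    split_ifs with h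
    · rw [h]; simp
    · simp
  map_mul' x y := by
    ext j
    rw [rotFun_coeff, HahnSeries.coeff_mul, HahnSeries.coeff_mul, Finset.mul_sum]
    have h : Finset.antidiagonal (rotFun ζ x).isPWO_support (rotFun ζ y).isPWO_support j =
        Finset.antidiagonal x.isPWO_support y.isPWO_support j := by
      ext p
      rw [Finset.mem_antidiagonal, Finset.mem_antidiagonal, rotFun_support, rotFun_support]
    rw [h]
    refine Finset.sum_congr rfl fun p hp => ?_
    rw [Finset.mem_antidiagonal] at hp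
    rw [rotFun_coeff, rotFun_coeff, ← hp.2.2, zpow_add]
    push_cast
    ring
  map_zero' := by
    ext j
    rw [rotFun_coeff]
    simp
  map_add' x y := by
    ext j
    rw [HahnSeries.coeff_add, rotFun_coeff, rotFun_coeff, rotFun_coeff, HahnSeries.coeff_add,
      mul_add]

@[simp]
lemma rot_coeff (ζ : kˣ) (x : LaurentSeries k) (j : ℤ) :
    (rot ζ x).coeff j = ((ζ ^ j : kˣ) : k) * x.coeff j := rfl

lemma rot_single (ζ : kˣ) (j : ℤ) (a : k) :
    rot ζ (HahnSeries.single j a) = HahnSeries.single j (((ζ ^ j : kˣ) : k) * a) := by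
  ext i
  rw [rot_coeff]
  by_cases h : i = j
  · rw [h, HahnSeries.coeff_single_same, HahnSeries.coeff_single_same]
  · rw [HahnSeries.coeff_single_of_ne h, HahnSeries.coeff_single_of_ne h, mul_zero]

lemma rot_rot (ζ ξ : kˣ) (x : LaurentSeries k) : rot ζ (rot ξ x) = rot (ζ * ξ) x := by
  ext j
  rw [rot_coeff, rot_coeff, rot_coeff, mul_zpow]
  push_cast
  ring

lemma rot_one (x : LaurentSeries k) : rot 1 x = x := by
  ext j
  rw [rot_coeff]
  simp

/-- the ring automorphism `w ↦ ζ w` -/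
noncomputable def rotEquiv (ζ : kˣ) : LaurentSeries k ≃+* LaurentSeries k :=
  { rot ζ with
    invFun := rot ζ⁻¹
    left_inv := fun x => by
      change rot ζ⁻¹ (rot ζ x) = x
      rw [rot_rot, inv_mul_cancel, rot_one]
    right_inv := fun x => by
      change rot ζ (rot ζ⁻¹ x) = x
      rw [rot_rot, mul_inv_cancel, rot_one] }

lemma rotEquiv_apply (ζ : kˣ) (x : LaurentSeries k) : rotEquiv ζ x = rot ζ x := rfl

/-- `w ↦ ζ w` with `ζ ^ N = 1` fixes the series in `w ^ N` -/
lemma rot_subst (ζ : kˣ) (N : ℕ+) (hζ : ζ ^ (N : ℕ) = 1) (x : LaurentSeries k) :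
    rot ζ (subst N x) = subst N x := by
  ext j
  rw [rot_coeff]
  by_cases h : ((N : ℕ) : ℤ) ∣ j
  · obtain ⟨i, rfl⟩ := h
    rw [zpow_mul, zpow_natCast, hζ, one_zpow]
    simp
  · rw [subst_coeff_of_not_dvd _ _ h, mul_zero]

/-- a series fixed by `w ↦ ζ w` for a primitive `N`-th root of unity `ζ` is a series in `w ^ N` -/
lemma exists_subst_eq (ζ : kˣ) (N : ℕ+) (hζ : orderOf ζ = N) {x : LaurentSeries k}
    (hx : rot ζ x = x) : ∃ y, subst N y = x := by
  -- the coefficients outside the multiples of `N` vanish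
  have h0 : ∀ j : ℤ, ¬ ((N : ℕ) : ℤ) ∣ j → x.coeff j = 0 := by
    intro j hj
    by_contra hne
    have h1 : ((ζ ^ j : kˣ) : k) * x.coeff j = x.coeff j := by
      conv_rhs => rw [← hx]
      rfl
    have h2 : ((ζ ^ j : kˣ) : k) = 1 := by
      apply mul_right_cancel₀ hne
      rw [h1, one_mul]
    have h3 : ζ ^ j = 1 := Units.ext h2
    apply hj
    rw [← hζ]
    exact orderOf_dvd_iff_zpow_eq_one.2 h3
  have hN : ((N : ℕ) : ℤ) ≠ 0 := by exact_mod_cast N.ne_zero
  have hN0 : (0 : ℤ) < ((N : ℕ) : ℤ) := by exact_mod_cast N.pos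
  refine ⟨⟨fun j => x.coeff (((N : ℕ) : ℤ) * j), ?_⟩, ?_⟩
  · -- partially well ordered support
    have hwf : x.support.IsWF := x.isPWO_support.isWF
    refine Set.isPWO_iff_isWF.2 ?_
    have hmono : StrictMono fun j : ℤ => ((N : ℕ) : ℤ) * j := fun a b hab =>
      mul_lt_mul_of_pos_left hab hN0
    have hsub : (fun j : ℤ => ((N : ℕ) : ℤ) * j) '' (Function.support
        fun j => x.coeff (((N : ℕ) : ℤ) * j)) ⊆ x.support := by
      rintro _ ⟨j, hj, rfl⟩
      exact hj
    have h4 := hwf.mono hsub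
    rw [Set.IsWF, Set.wellFoundedOn_image] at h4
    rw [Set.IsWF]
    refine h4.mono' ?_
    intro a _ b _ hab
    exact hmono hab
  · ext j
    by_cases h : ((N : ℕ) : ℤ) ∣ j
    · obtain ⟨i, rfl⟩ := h
      rw [subst_coeff]
    · rw [subst_coeff_of_not_dvd _ _ h, h0 j h]

end Pool.Agent.Lib.Puiseux
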