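import Mathlib

/-!
# Lifting of coprime factorizations from `k[T]` to `k⟦X⟧[T]`
-/

open Polynomial

namespace Pool.Agent.Lib.Puiseux

variable {k : Type*} [Field k]

/-- solving `g0 v + u h0 = r` with small degrees -/
lemma exists_solve {g0 h0 : k[X]} (hg : g0.Monic) (hh : h0.Monic) (hc : IsCoprime g0 h0)
    (r : k[X]) (hr : r.degree < (g0 * h0).degree) :
    ∃ p : k[X] × k[X], p.1.degree < g0.degree ∧ p.2.degree < h0.degree ∧
      g0 * p.2 + p.1 * h0 = r := by
  obtain ⟨a, b, hab⟩ := hc
  have h1 := modByMonic_add_div (r * b) g0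
  have key : g0 * (r * a + h0 * ((r * b) /ₘ g0)) = r - (r * b) %ₘ g0 * h0 := by
    linear_combination r * hab + h0 * h1
  refine ⟨((r * b) %ₘ g0, r * a + h0 * ((r * b) /ₘ g0)), degree_modByMonic_lt _ hg, ?_, ?_⟩
  · have h3 : (g0 * (r * a + h0 * ((r * b) /ₘ g0))).degree < (g0 * h0).degree := by
      rw [key]
      refine (degree_sub_le _ _).trans_lt (max_lt hr ?_)
      rw [degree_mul, degree_mul]
      have h4 := degree_modByMonic_lt (r * b) hg
      exact WithBot.add_lt_add_right (by rw [Ne, degree_eq_bot]; exact hh.ne_zero) h4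
    rw [degree_mul, degree_mul] at h3
    exact lt_of_add_lt_add_left h3
  · simp only
    linear_combination key

/-- the recursion -/
noncomputable def gh (g0 h0 : k[X]) (f : ℕ → k[X]) (sol : k[X] → k[X] × k[X]) : ℕ → k[X] × k[X]
  | 0 => (g0, h0)
  | (n + 1) => sol (f (n + 1) -
      ∑ i : Fin n, (gh g0 h0 f sol (i.1 + 1)).1 * (gh g0 h0 f sol (n - i.1)).2)
  termination_by n => n
  decreasing_by
    · have := i.2; omega
    · omega

/-- the coefficients along `X` -/
noncomputable def slice (Q : (PowerSeries k)[X]) (n : ℕ) : k[X] :=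
  ∑ i ∈ Finset.range (Q.natDegree + 1), monomial i (PowerSeries.coeff n (Q.coeff i))

lemma slice_coeff (Q : (PowerSeries k)[X]) (n i : ℕ) :
    (slice Q n).coeff i = PowerSeries.coeff n (Q.coeff i) := by
  unfold slice
  rw [finsetSum_coeff]
  simp only [coeff_monomial]
  rw [Finset.sum_ite_eq']
  split_ifs with h
  · rfl
  · rw [coeff_eq_zero_of_natDegree_lt (by simpa using h)]; simp

/-- glueing -/
noncomputable def glue (d : ℕ) (F : ℕ → k[X]) : (PowerSeries k)[X] :=
  ∑ i ∈ Finset.range (d + 1), monomial i (PowerSeries.mk fun n => (F n).coeff i)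

lemma glue_coeff {d : ℕ} {F : ℕ → k[X]} (hF : ∀ n, (F n).natDegree ≤ d) (i : ℕ) :
    (glue d F).coeff i = PowerSeries.mk fun n => (F n).coeff i := by
  unfold glue
  rw [finsetSum_coeff]
  simp only [coeff_monomial]
  rw [Finset.sum_ite_eq']
  split_ifs with h
  · rfl
  · ext n
    rw [PowerSeries.coeff_mk, coeff_eq_zero_of_natDegree_lt]
    · simp
    · have := hF n
      have h' : d < i := by simpa using h
      omega

/-- **Hensel's lemma for coprime factorizations** over `k⟦X⟧`. -/
theorem exists_lift_factor {Q : (PowerSeries k)[X]} (hQ : Q.Monic) {g0 h0 : k[X]}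
    (hg : g0.Monic) (hh : h0.Monic) (hc : IsCoprime g0 h0)
    (hQ0 : Q.map (PowerSeries.constantCoeff (R := k)) = g0 * h0) :
    ∃ G H : (PowerSeries k)[X], G.Monic ∧ H.Monic ∧ Q = G * H ∧
      G.natDegree = g0.natDegree ∧ H.natDegree = h0.natDegree := by
  classical
  have hQdeg : Q.natDegree = (g0 * h0).natDegree := by
    rw [← hQ0, hQ.natDegree_map]
  have hghm : (g0 * h0).Monic := hg.mul hh
  -- the solver
  have hsol : ∀ r : k[X], ∃ p : k[X] × k[X], r.degree < (g0 * h0).degree →
      p.1.degree < g0.degree ∧ p.2.degree < h0.degree ∧ g0 * p.2 + p.1 * h0 = r := by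
    intro r
    by_cases hr : r.degree < (g0 * h0).degree
    · obtain ⟨p, hp⟩ := exists_solve hg hh hc r hr
      exact ⟨p, fun _ => hp⟩
    · exact ⟨0, fun h => absurd h hr⟩
  choose sol hsol using hsol
  set s : ℕ → k[X] × k[X] := gh g0 h0 (slice Q) sol with hs
  have hs0 : s 0 = (g0, h0) := by rw [hs, gh]
  have hs1 : ∀ n, s (n + 1) = sol (slice Q (n + 1) -
      ∑ i ∈ Finset.range n, (s (i + 1)).1 * (s (n - i)).2) := by
    intro n
    rw [hs, gh, Finset.sum_range]
  have hslice : ∀ n, (slice Q (n + 1)).degree < (g0 * h0).degree := by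
    intro n
    rw [degree_eq_natDegree hghm.ne_zero, degree_lt_iff_coeff_zero]
    intro m hm
    rw [slice_coeff]
    rcases lt_or_eq_of_le hm with h | h
    · rw [coeff_eq_zero_of_natDegree_lt (by rw [hQdeg]; exact h)]; simp
    · rw [← h, ← hQdeg, hQ.coeff_natDegree, PowerSeries.coeff_one]
      simp
  -- the degrees
  have hdeg : ∀ n, (s (n + 1)).1.degree < g0.degree ∧ (s (n + 1)).2.degree < h0.degree ∧
      g0 * (s (n + 1)).2 + (s (n + 1)).1 * h0 = slice Q (n + 1) -
      ∑ i ∈ Finset.range n, (s (i + 1)).1 * (s (n - i)).2 := by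
    intro n
    induction n using Nat.strong_induction_on with
    | _ n ih =>
      rw [hs1 n]
      apply hsol
      refine (degree_sub_le _ _).trans_lt (max_lt (hslice n) ?_)
      refine (degree_sum_le _ _).trans_lt ?_
      rw [Finset.sup_lt_iff (bot_lt_iff_ne_bot.2 (by rw [Ne, degree_eq_bot]; exact hghm.ne_zero))]
      intro i hi
      rw [Finset.mem_range] at hi
      rw [degree_mul, degree_mul]
      have h1 := (ih i hi).1
      obtain ⟨j, hj⟩ : ∃ j, n - i = j + 1 := ⟨n - i - 1, by omega⟩
      have h2 : (s (n - i)).2.degree < h0.degree := by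
        rw [hj]
        exact (ih j (by omega)).2.1
      exact (WithBot.add_lt_add_right (by rw [Ne, degree_eq_bot]; exact hh.ne_zero) h1).trans_le'
        (add_le_add_right h2.le _)
  have hd1 : ∀ n, (s n).1.natDegree ≤ g0.natDegree := by
    intro n
    rcases n with _ | n
    · rw [hs0]
    · exact natDegree_le_natDegree (hdeg n).1.le
  have hd2 : ∀ n, (s n).2.natDegree ≤ h0.natDegree := by
    intro n
    rcases n with _ | n
    · rw [hs0]
    · exact natDegree_le_natDegree (hdeg n).2.1.le
  have hconv : ∀ n : ℕ, ∑ p ∈ (Finset.HasAntidiagonal.antidiagonal n : Finset (ℕ × ℕ)), (s p.1).1 * (s p.2).2 =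
      slice Q n := by
    intro n
    rw [Finset.Nat.sum_antidiagonal_eq_sum_range_succ (fun a b => (s a).1 * (s b).2)]
    rcases n with _ | n
    · simp only [Finset.sum_range_one, Nat.sub_zero, hs0]
      ext i
      rw [slice_coeff, ← hQ0, coeff_map, PowerSeries.coeff_zero_eq_constantCoeff]
    · rw [Finset.sum_range_succ, Finset.sum_range_succ']
      simp only [hs0, Nat.sub_zero, Nat.sub_self]
      have h1 := (hdeg n).2.2
      have h2 : ∑ x ∈ Finset.range n, (s (x + 1)).1 * (s (n + 1 - (x + 1))).2 =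
          ∑ i ∈ Finset.range n, (s (i + 1)).1 * (s (n - i)).2 := by
        refine Finset.sum_congr rfl fun x _ => ?_
        rw [Nat.add_sub_add_right]
      rw [h2]
      linear_combination h1
  set G := glue g0.natDegree (fun n => (s n).1) with hG
  set H := glue h0.natDegree (fun n => (s n).2) with hH
  have hGc : ∀ i, G.coeff i = PowerSeries.mk fun n => (s n).1.coeff i := glue_coeff hd1
  have hHc : ∀ i, H.coeff i = PowerSeries.mk fun n => (s n).2.coeff i := glue_coeff hd2
  have hGlead : G.coeff g0.natDegree = 1 := by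
    rw [hGc]
    ext n
    rw [PowerSeries.coeff_mk, PowerSeries.coeff_one]
    rcases n with _ | n
    · rw [hs0]; simp [hg.coeff_natDegree]
    · rw [coeff_eq_zero_of_degree_lt]
      · simp
      · rw [← degree_eq_natDegree hg.ne_zero]; exact (hdeg n).1
  have hHlead : H.coeff h0.natDegree = 1 := by
    rw [hHc]
    ext n
    rw [PowerSeries.coeff_mk, PowerSeries.coeff_one]
    rcases n with _ | n
    · rw [hs0]; simp [hh.coeff_natDegree]
    · rw [coeff_eq_zero_of_degree_lt]
      · simp
      · rw [← degree_eq_natDegree hh.ne_zero]; exact (hdeg n).2.1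
  have hGd : G.natDegree ≤ g0.natDegree := by
    rw [natDegree_le_iff_coeff_eq_zero]
    intro N hN
    rw [hGc]
    ext n
    rw [PowerSeries.coeff_mk, coeff_eq_zero_of_natDegree_lt ((hd1 n).trans_lt hN)]
    simp
  have hHd : H.natDegree ≤ h0.natDegree := by
    rw [natDegree_le_iff_coeff_eq_zero]
    intro N hN
    rw [hHc]
    ext n
    rw [PowerSeries.coeff_mk, coeff_eq_zero_of_natDegree_lt ((hd2 n).trans_lt hN)]
    simp
  refine ⟨G, H, monic_of_natDegree_le_of_coeff_eq_one _ hGd hGlead,
    monic_of_natDegree_le_of_coeff_eq_one _ hHd hHlead, ?_,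
    natDegree_eq_of_le_of_coeff_ne_zero hGd (by rw [hGlead]; exact one_ne_zero),
    natDegree_eq_of_le_of_coeff_ne_zero hHd (by rw [hHlead]; exact one_ne_zero)⟩
  ext i n
  rw [← slice_coeff, ← hconv n, finsetSum_coeff, coeff_mul, map_sum]
  simp only [coeff_mul, PowerSeries.coeff_mul]
  rw [Finset.sum_comm]
  refine Finset.sum_congr rfl fun p _ => Finset.sum_congr rfl fun q _ => ?_
  rw [hGc, hHc, PowerSeries.coeff_mk, PowerSeries.coeff_mk]

end Pool.Agent.Lib.Puiseux
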