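import Mathlib
import Pool.Agent.Lib.Puiseux.Hensel
import Pool.Agent.Lib.Puiseux.Sub

/-!
# The theorem of Newton and Puiseux
-/

open Polynomial

namespace Pool.Agent.Lib.Puiseux

variable {k : Type*} [Field k]

/-- a monic polynomial over an algebraically closed field of characteristic zero with vanishing
next coefficient which is not a power of `T` is a product of two coprime factors of smaller degree -/
lemma exists_coprime_factor [IsAlgClosed k] [CharZero k] {P : k[X]} (hP : P.Monic)
    (h1 : P.natDegree ≠ 0) (h2 : P.coeff (P.natDegree - 1) = 0)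
    {i : ℕ} (hi : i < P.natDegree) (hi' : P.coeff i ≠ 0) :
    ∃ g h : k[X], g.Monic ∧ h.Monic ∧ IsCoprime g h ∧ P = g * h ∧
      g.natDegree < P.natDegree ∧ h.natDegree < P.natDegree := by
  obtain ⟨c, hc⟩ := IsAlgClosed.exists_root P (by
    rw [degree_eq_natDegree hP.ne_zero]
    exact_mod_cast h1)
  obtain ⟨h, hh, hnd⟩ := exists_eq_pow_rootMultiplicity_mul_and_not_dvd P hP.ne_zero c
  set m := rootMultiplicity c P with hm
  have hm0 : 0 < m := (rootMultiplicity_pos hP.ne_zero).2 hc
  have hpm : ((X - C c) ^ m).Monic := (monic_X_sub_C c).pow m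
  have hhm : h.Monic := hpm.of_mul_monic_left (by rw [← hh]; exact hP)
  have hdeg : P.natDegree = m + h.natDegree := by
    conv_lhs => rw [hh]
    rw [hpm.natDegree_mul hhm, (monic_X_sub_C c).natDegree_pow, natDegree_X_sub_C, mul_one]
  have hh0 : h.natDegree ≠ 0 := by
    intro h0
    have hone : h = 1 := hhm.natDegree_eq_zero.1 h0
    rw [hone, mul_one] at hh
    rw [h0, add_zero] at hdeg
    -- `P = (X - c) ^ m`
    have h3 : P.nextCoeff = 0 := by
      rw [nextCoeff_of_natDegree_pos (by omega)]; exact h2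
    have h4 : P.nextCoeff = -(m * c) := by
      rw [hh, (monic_X_sub_C c).nextCoeff_pow, nextCoeff_X_sub_C]
      simp
    have h5 : c = 0 := by
      rw [h4, neg_eq_zero, mul_eq_zero] at h3
      rcases h3 with h3 | h3
      · exfalso
        have : m = 0 := by exact_mod_cast h3
        omega
      · exact h3
    rw [h5, C_0, sub_zero] at hh
    apply hi'
    rw [hh, coeff_X_pow, if_neg (by omega)]
  refine ⟨(X - C c) ^ m, h, hpm, hhm, ?_, hh, ?_, by omega⟩
  · exact IsCoprime.pow_left ((irreducible_X_sub_C c).coprime_iff_not_dvd.2 hnd)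
  · rw [(monic_X_sub_C c).natDegree_pow, natDegree_X_sub_C, mul_one]
    omega

/-- the monic case -/
theorem puiseux_monic [IsAlgClosed k] [CharZero k] : ∀ (d : ℕ) (P : (LaurentSeries k)[X]),
    P.Monic → P.natDegree = d → ∃ N : ℕ+, (P.map (subst N)).Splits := by
  intro d
  classical
  have : CharZero (LaurentSeries k) :=
    charZero_of_injective_algebraMap (RingHom.injective (algebraMap k (LaurentSeries k)))
  induction d using Nat.strong_induction_on with
  | _ d ih =>
  intro P hP hPd
  rcases Nat.eq_zero_or_pos d with hd | hd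
  · refine ⟨1, Splits.of_natDegree_eq_zero ?_⟩
    rw [hP.natDegree_map, hPd, hd]
  -- kill the next coefficient
  set c : LaurentSeries k := -(P.coeff (d - 1)) / d with hc
  have hd' : (d : LaurentSeries k) ≠ 0 := by exact_mod_cast hd.ne'
  set P1 := P.comp (X + C c) with hP1
  have hP1m : P1.Monic := hP.comp_X_add_C c
  have hP1d : P1.natDegree = d := by
    rw [hP1, natDegree_comp, natDegree_X_add_C, mul_one, hPd]
  have hP1c : P1.coeff (d - 1) = 0 := by
    have h1 : P1 = taylor c P := rfl
    have h2 : (hasseDeriv (d - 1) P).natDegree < 2 := by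
      refine (natDegree_hasseDeriv_le P (d - 1)).trans_lt ?_
      omega
    rw [h1, taylor_coeff, eval_eq_sum_range' h2, Finset.sum_range_succ, Finset.sum_range_one,
      hasseDeriv_coeff, hasseDeriv_coeff]
    have h3 : 1 + (d - 1) = d := by omega
    have h4 : P.coeff d = 1 := by rw [← hPd]; exact hP.coeff_natDegree
    have h5 : d.choose (d - 1) = d := by
      obtain ⟨e, rfl⟩ : ∃ e, d = e + 1 := ⟨d - 1, by omega⟩
      simp
    rw [h3, h4, h5, zero_add, Nat.choose_self, hc]
    field_simp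
    ring
  suffices h : ∃ N : ℕ+, (P1.map (subst N)).Splits by
    obtain ⟨N, hN⟩ := h
    refine ⟨N, ?_⟩
    have h2 : P.map (subst N) = (P1.map (subst N)).comp (X - C (subst N c)) := by
      rw [hP1, Polynomial.map_comp, comp_assoc]
      simp
    rw [h2]
    exact hN.comp_X_sub_C _
  by_cases hz : ∀ i < d, P1.coeff i = 0
  · refine ⟨1, ?_⟩
    have : P1 = X ^ d := by
      ext1 i
      rw [coeff_X_pow]
      split_ifs with h
      · rw [h, ← hP1d]; exact hP1m.coeff_natDegree
      · rcases lt_or_gt_of_ne h with h' | h'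
        · exact hz i h'
        · exact coeff_eq_zero_of_natDegree_lt (by omega)
    rw [this]
    simp only [Polynomial.map_pow, map_X]
    exact Splits.X_pow d
  push Not at hz
  obtain ⟨i1, hi1, hi1'⟩ := hz
  -- the slope
  obtain ⟨i0, hi0, hmin⟩ := Finset.exists_min_image
    ((Finset.range d).filter fun i => P1.coeff i ≠ 0)
    (fun i => ((P1.coeff i).order : ℚ) / ((d : ℚ) - i))
    ⟨i1, by simp [hi1, hi1']⟩
  simp only [Finset.mem_filter, Finset.mem_range] at hi0 hmin
  set q : ℕ+ := ⟨d - i0, by omega⟩ with hq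
  have hqn : (q : ℕ) = d - i0 := rfl
  set p : ℤ := (P1.coeff i0).order with hp
  have hslope : ∀ i < d, P1.coeff i ≠ 0 → p * ((d : ℤ) - i) ≤ ((q : ℕ) : ℤ) * (P1.coeff i).order := by
    intro i hi hi'
    have h1 := hmin i ⟨hi, hi'⟩
    have h2 : (0 : ℚ) < (d : ℚ) - i := by
      have : (i : ℚ) < d := by exact_mod_cast hi
      linarith
    have h3 : (0 : ℚ) < (d : ℚ) - i0 := by
      have : (i0 : ℚ) < d := by exact_mod_cast hi0.1
      linarith
    rw [div_le_div_iff₀ h3 h2] at h1
    have h4 : ((q : ℕ) : ℚ) = (d : ℚ) - i0 := by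
      rw [hqn, Nat.cast_sub hi0.1.le]
    have h5 : (p : ℚ) * ((d : ℚ) - i) ≤ ((q : ℕ) : ℚ) * ((P1.coeff i).order : ℚ) := by
      rw [h4]; linarith
    exact_mod_cast h5
  -- scaling
  set Pq := P1.map (subst q) with hPq
  have hPqm : Pq.Monic := hP1m.map _
  have hPqd : Pq.natDegree = d := by rw [hPq, hP1m.natDegree_map, hP1d]
  set s : LaurentSeries k := HahnSeries.single (-p) 1 with hs
  set t : LaurentSeries k := HahnSeries.single p 1 with ht
  have hst : s * t = 1 := by
    rw [hs, ht, HahnSeries.single_mul_single, neg_add_cancel, mul_one]; rfl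
  set Q := Pq.scaleRoots s with hQ
  have hQm : Q.Monic := (monic_scaleRoots_iff s).2 hPqm
  have hQd : Q.natDegree = d := by rw [hQ, natDegree_scaleRoots, hPqd]
  have hPqQ : Pq = Q.scaleRoots t := by
    rw [hQ, ← scaleRoots_mul, hst, scaleRoots_one]
  have hQc : ∀ i ≤ d, ∀ j : ℤ, (Q.coeff i).coeff j =
      (subst q (P1.coeff i)).coeff (j + p * ((d : ℤ) - i)) := by
    intro i hi j
    rw [hQ, coeff_scaleRoots, hPqd, hs, HahnSeries.single_pow, one_pow, hPq, coeff_map]
    have h1 : j = (j + p * ((d : ℤ) - i)) + (d - i) • (-p) := by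
      rw [nsmul_eq_mul, Nat.cast_sub hi]; ring
    conv_lhs => rw [h1]
    rw [HahnSeries.coeff_mul_single_add, mul_one]
  have hQneg : ∀ i, ∀ j < 0, (Q.coeff i).coeff j = 0 := by
    intro i j hj
    rcases lt_trichotomy i d with hi | hi | hi
    · rw [hQc i hi.le]
      by_cases h0 : P1.coeff i = 0
      · rw [h0, map_zero]; rfl
      by_cases hdv : ((q : ℕ) : ℤ) ∣ j + p * ((d : ℤ) - i)
      · obtain ⟨l, hl⟩ := hdv
        rw [hl, subst_coeff]
        apply HahnSeries.coeff_eq_zero_of_lt_order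
        have h1 := hslope i hi h0
        have hq0 : (0 : ℤ) < ((q : ℕ) : ℤ) := by exact_mod_cast q.pos
        by_contra hcon
        push Not at hcon
        have h2 := mul_le_mul_of_nonneg_left hcon hq0.le
        linarith
      · exact subst_coeff_of_not_dvd _ _ hdv
    · have h1 : Q.coeff i = 1 := by rw [hi, ← hQd]; exact hQm.coeff_natDegree
      rw [h1, HahnSeries.coeff_one, if_neg hj.ne]
    · rw [coeff_eq_zero_of_natDegree_lt (by omega)]; rfl
  obtain ⟨Q', hQ'1, hQ'2, hQ'3⟩ := lifts_and_natDegree_eq_and_monic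
    (f := HahnSeries.ofPowerSeries ℤ k) (p := Q)
    ((lifts_iff_coeff_lifts Q).2 fun i => by
      obtain ⟨r, hr⟩ := mem_range_of_coeff_neg (hQneg i)
      exact ⟨r, hr⟩) hQm
  have hco : ∀ i, PowerSeries.constantCoeff (Q'.coeff i) = (Q.coeff i).coeff 0 := by
    intro i
    rw [← hQ'1, coeff_map]
    have := HahnSeries.ofPowerSeries_apply_coeff (Γ := ℤ) (Q'.coeff i) 0
    rw [Nat.cast_zero] at this
    rw [this, PowerSeries.coeff_zero_eq_constantCoeff]
  set Q0 := Q'.map (PowerSeries.constantCoeff (R := k)) with hQ0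
  have hQ0m : Q0.Monic := hQ'3.map _
  have hQ0d : Q0.natDegree = d := by rw [hQ0, hQ'3.natDegree_map, hQ'2, hQd]
  obtain ⟨g0, h0, hg0, hh0, hcop, hfac, hgd, hhd⟩ := exists_coprime_factor hQ0m
    (by omega) (i := i0) (by
      rw [hQ0d, hQ0, coeff_map, hco, hQc (d - 1) (by omega), hP1c, map_zero]; rfl)
    (by rw [hQ0d]; exact hi0.1) (by
      rw [hQ0, coeff_map, hco, hQc i0 hi0.1.le]
      have h1 : (0 : ℤ) + p * ((d : ℤ) - i0) = ((q : ℕ) : ℤ) * p := by
        have : ((q : ℕ) : ℤ) = (d : ℤ) - i0 := by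
          rw [hqn, Nat.cast_sub hi0.1.le]
        rw [this]; ring
      rw [h1, subst_coeff, hp]
      exact fun h => hi0.2 (HahnSeries.coeff_order_eq_zero.1 h))
  obtain ⟨G, H, hGm, hHm, hGH, hGd, hHd⟩ := exists_lift_factor hQ'3 hg0 hh0 hcop hfac
  set ι := HahnSeries.ofPowerSeries ℤ k with hι
  obtain ⟨N1, hN1⟩ := ih (G.map ι).natDegree (by rw [hGm.natDegree_map]; omega) (G.map ι)
    (hGm.map _) rfl
  obtain ⟨N2, hN2⟩ := ih (H.map ι).natDegree (by rw [hHm.natDegree_map]; omega) (H.map ι)
    (hHm.map _) rfl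
  have hQs : (Q.map (subst (N1 * N2))).Splits := by
    rw [← hQ'1, hGH, Polynomial.map_mul, Polynomial.map_mul]
    apply Splits.mul
    · rw [← subst_comp N2 N1, ← Polynomial.map_map]
      exact hN1.map _
    · rw [mul_comm N1 N2, ← subst_comp N1 N2, ← Polynomial.map_map]
      exact hN2.map _
  refine ⟨q * (N1 * N2), ?_⟩
  rw [← subst_comp (N1 * N2) q, ← Polynomial.map_map, ← hPq, hPqQ,
    map_scaleRoots _ _ _ (by rw [hQm.leadingCoeff, map_one]; exact one_ne_zero)]
  exact hQs.scaleRoots _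

/-- **Theorem of Newton and Puiseux.** Every polynomial over the field of Laurent series over an
algebraically closed field of characteristic zero splits after a substitution `z = w ^ N`. -/
theorem puiseux [IsAlgClosed k] [CharZero k] (P : (LaurentSeries k)[X]) :
    ∃ N : ℕ+, (P.map (subst N)).Splits := by
  rcases eq_or_ne P 0 with rfl | hP
  · exact ⟨1, by rw [Polynomial.map_zero]; exact Splits.zero⟩
  obtain ⟨N, hN⟩ := puiseux_monic _ (P * C P.leadingCoeff⁻¹) (monic_mul_leadingCoeff_inv hP) rfl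
  refine ⟨N, ?_⟩
  have h1 : P = (P * C P.leadingCoeff⁻¹) * C P.leadingCoeff := by
    rw [mul_assoc, ← C_mul, inv_mul_cancel₀ (leadingCoeff_ne_zero.2 hP), C_1, mul_one]
  rw [h1, Polynomial.map_mul, map_C]
  exact hN.mul (Splits.C _)

end Pool.Agent.Lib.Puiseux
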